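import Mathlib
import Pool.Agent.H83.CP.REE

set_option autoImplicit false

namespace Pool.Agent.Results.MP_78a685_co.AlmostConvex

open Classical in
/-- Sets in convex position up to `t` points have many low-multiplicity distances. -/
theorem result (M t : ℕ) : ∃ N : ℕ, ∀ A V : Finset (EuclideanSpace ℝ (Fin 2)), V ⊆ A →
    (A \ V).card ≤ t →
    (∀ x ∈ V, x ∉ convexHull ℝ ((V : Set (EuclideanSpace ℝ (Fin 2))) \ {x})) → N ≤ A.card →
    M ≤ ((A.offDiag.image (fun p => dist p.1 p.2)).filter
      (fun d => (A.offDiag.filter (fun p => dist p.1 p.2 = d)).card ≤ 2 * A.card)).card :=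
  Pool.Agent.H83.CP.main_E M t

end Pool.Agent.Results.MP_78a685_co.AlmostConvex
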