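import Mathlib
import Pool.Agent.H34.LM.Layers

/-!
# MP_78a685_co: low-multiplicity distances of sets with few outer points

`low A` is the number of distances of `A` that are realised by at most `|A|` unordered pairs
(`2 |A|` ordered pairs). `farLayers A K` are the points of the first `K` farthest-point layers,
`hullLayers A K` the points of the first `K` convex layers.
-/

set_option autoImplicit false

namespace Pool.Agent.Results.MP_78a685_co.FewOuterPoints

open Finset
open scoped Classical

/-- The plane. -/
abbrev Plane : Type := EuclideanSpace ℝ (Fin 2)

/-- The number of low-multiplicity distances of `A` (every pair is counted in both orders, hence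
the factor `2`). -/
noncomputable def low (A : Finset Plane) : ℕ :=
  ((A.offDiag.image (fun p => dist p.1 p.2)).filter
    (fun d => (A.offDiag.filter (fun p => dist p.1 p.2 = d)).card ≤ 2 * A.card)).card

/-- What remains of `B` when all points are removed that are a farthest point of `B` from some
point of `A`. -/
noncomputable def farPeel (A B : Finset Plane) : Finset Plane :=
  B.filter (fun x => ∀ w ∈ A, ∃ y ∈ B, dist x w < dist y w)

/-- What remains of `B` when the vertices of its convex hull are removed. -/
noncomputable def hullPeel (B : Finset Plane) : Finset Plane :=
  B.filter (fun x => x ∈ convexHull ℝ ((B : Set Plane) \ {x}))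

/-- The points of the first `K` farthest-point layers of `A`. -/
noncomputable def farLayers (A : Finset Plane) (K : ℕ) : Finset Plane := A \ (farPeel A)^[K] A

/-- The points of the first `K` convex layers of `A`. -/
noncomputable def hullLayers (A : Finset Plane) (K : ℕ) : Finset Plane := A \ hullPeel^[K] A

/-- Let `A` be a nonempty finite set in the plane and `K` a natural number. Then `A` has at least
`K` low-multiplicity distances as soon as one of the following holds: (1) the first `K`
farthest-point layers of `A` contain at most `|A| / (8 K)` points; (2) the first `K` convex layers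
of `A` contain at most `|A| / (8 K)` points; (3) every subset of `A` in convex position has at most
`c` points, where `8 K ^ 2 c ≤ |A|`. -/
theorem result :
    (∀ A : Finset Plane, A.Nonempty → ∀ K : ℕ,
      8 * K * (farLayers A K).card ≤ A.card → K ≤ low A) ∧
    (∀ A : Finset Plane, A.Nonempty → ∀ K : ℕ,
      8 * K * (hullLayers A K).card ≤ A.card → K ≤ low A) ∧
    (∀ A : Finset Plane, A.Nonempty → ∀ K c : ℕ,
      (∀ V : Finset Plane, V ⊆ A → (∀ x ∈ V, x ∉ convexHull ℝ ((V : Set Plane) \ {x})) →
        V.card ≤ c) →
      8 * K ^ 2 * c ≤ A.card → K ≤ low A) :=
  ⟨fun A hA K h => Pool.Agent.H34.LM.low_of_far A hA K h,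
    fun A hA K h => Pool.Agent.H34.LM.low_of_hull A hA K h,
    fun A hA K c hc h => Pool.Agent.H34.LM.low_of_convex A hA K c hc h⟩

end Pool.Agent.Results.MP_78a685_co.FewOuterPoints
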