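import Mathlib
import Pool.Agent.H3.LC.FIN

set_option autoImplicit false

namespace Pool.Agent.Results.MP_78a685_co.LineCircle

open Classical in
/-- A planar set with at least `n ^ (24/25)` of its `n` points on a line or circle has many low-multiplicity distances. -/
theorem result : ∃ N : ℕ, ∀ A V : Finset (EuclideanSpace ℝ (Fin 2)), N ≤ A.card → V ⊆ A →
    A.card ^ 24 ≤ V.card ^ 25 →
    (Collinear ℝ (V : Set (EuclideanSpace ℝ (Fin 2))) ∨
      EuclideanGeometry.Cospherical (V : Set (EuclideanSpace ℝ (Fin 2)))) →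
    V.card ≤ 20 * ((A.offDiag.image (fun p => dist p.1 p.2)).filter
      (fun d => (A.offDiag.filter (fun p => dist p.1 p.2 = d)).card ≤ 2 * A.card)).card :=
  Pool.Agent.H3.LC.FIN

end Pool.Agent.Results.MP_78a685_co.LineCircle
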