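import Mathlib
import Pool.Agent.H3.LD.Main

set_option autoImplicit false

namespace Pool.Agent.Results.MP_78a685_co.SmallDoubling

open scoped Pointwise

open Classical in
/-- Planar sets with small sum set and difference set have many low-multiplicity distances. -/
theorem result (k : ℕ) (A : Finset (EuclideanSpace ℝ (Fin 2))) (hA : A.Nonempty)
    (h : 12 * (k ^ 2 + 1) ^ 2 * ((A + A).card * (A - A).card) ≤ A.card ^ 3) :
    k + 1 ≤ ((A.offDiag.image (fun p => dist p.1 p.2)).filter
      (fun d => (A.offDiag.filter (fun p => dist p.1 p.2 = d)).card ≤ 2 * A.card)).card :=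
  Pool.Agent.H3.LD.main A k hA h

end Pool.Agent.Results.MP_78a685_co.SmallDoubling
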